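import Mathlib
import Pool.Agent.R212.GF1
import Pool.Agent.R212.GF14

/-!
MP_bbd370_an: growth-fragmentation semigroups with bounded fragmentation rate can have a
spectral gap in `X_1 = L^1((0,∞); x dx)`.
-/

open MeasureTheory Set
open scoped ENNReal

namespace Pool.Agent.Results.MP_bbd370_an.BoundedRateGap

open Pool.Agent.R212.GF

/-- Two explicit data, with fragmentation rate `a` bounded on all of `(0,∞)`, for which the
growth-fragmentation semigroup has a spectral gap in `X_1`: the first has a mass-conserving
kernel, the second has `r(x) = x` and `a ≡ 1`. -/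
theorem result :
    (∃ D : Data,
      (∀ x, 0 < x → D.r x = if x < 1 then x / 4 else x) ∧
      (∀ x, 0 < x → D.a x = if x < 1 then 0 else 1) ∧
      (∀ x y, 0 < x → x < y → D.b x y = if 1 ≤ y then (if x < 1 then y / x else 0) else 2 / y) ∧
      (∀ y, 0 < y → ∫⁻ x in Ioo 0 y, ENNReal.ofReal (x * D.b x y) = ENNReal.ofReal y) ∧
      GeneratesWithGap ℝ D ∧ GeneratesWithGap ℂ D) ∧
    (∃ D : Data,
      (∀ x, 0 < x → D.r x = x) ∧
      (∀ x, 0 < x → D.a x = 1) ∧
      (∀ x y, 0 < x → x < y → D.b x y =
        if 1 ≤ y then (if x < 1 then y * √x / (2 * x ^ 2) else 0) else 0) ∧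
      GeneratesWithGap ℝ D ∧ GeneratesWithGap ℂ D) := by
  have r1 : (0 : ℝ) < 1 / 4 := by norm_num
  have r2 : (1 / 4 : ℝ) ≤ 1 := by norm_num
  have r3 : (1 / 4 : ℝ) < 1 / 2 := by norm_num
  have s1 : (0 : ℝ) < 1 / 2 := by norm_num
  constructor
  · refine ⟨DD (θ := 1) r1 r2 r3 le_rfl zero_le_one le_rfl, ?_, ?_, ?_, ?_,
      main r1 r2 r1.le r3 le_rfl zero_le_one le_rfl (by norm_num),
      main r1 r2 r1.le r3 le_rfl zero_le_one le_rfl (by norm_num)⟩
    · intro x _
      change rr (1 / 4) x = _
      unfold rr
      split_ifs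
      · ring
      · rfl
    · intro x _
      change aa (1 / 4 - 1 / 4) x = _
      unfold aa
      split_ifs
      · norm_num
      · rfl
    · intro x y hx _
      change bb (1 / 4) (1 / 4) 1 x y = _
      unfold bb
      by_cases hy : 1 ≤ y
      · rw [if_pos hy, if_pos hy]
        by_cases h : x < 1
        · rw [if_pos h]
          have h1 : gf (1 / 4) (psi (1 / 4) x) = x / 4 := by
            unfold gf
            rw [psi_of_lt r1 r2 hx h.le, if_pos (div_neg_of_neg_of_pos (Real.log_neg hx h) r1)]
            rw [show (1 / 2 - 1 / 4 : ℝ) * (Real.log x / (1 / 4)) = Real.log x by ring,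
              Real.exp_log hx]
            ring
          rw [h1]
          unfold rr
          rw [if_pos h]
          field_simp
        · rw [if_neg h, gf_psi_zero r1 r2 (not_lt.1 h)]
          simp
      · rw [if_neg hy, if_neg hy, one_mul]
    · intro y hy
      change ∫⁻ x in Ioo 0 y, ENNReal.ofReal (x * bb (1 / 4) (1 / 4) 1 x y) = _
      rcases lt_or_ge y 1 with h | h
      · rw [bb_mass_lt r1 r2 zero_le_one hy h, one_mul]
      · exact bb_mass_ge r1 r2 r3 h
  · refine ⟨DD (θ := 0) one_pos le_rfl s1 zero_le_one le_rfl zero_le_one, ?_, ?_, ?_,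
      main one_pos le_rfl le_rfl s1 zero_le_one le_rfl zero_le_one (by norm_num),
      main one_pos le_rfl le_rfl s1 zero_le_one le_rfl zero_le_one (by norm_num)⟩
    · intro x _
      change rr 1 x = _
      unfold rr
      split_ifs <;> ring
    · intro x _
      change aa (1 - 0) x = _
      unfold aa
      split_ifs <;> norm_num
    · intro x y hx _
      change bb 1 0 0 x y = _
      unfold bb
      by_cases hy : 1 ≤ y
      · rw [if_pos hy, if_pos hy]
        by_cases h : x < 1
        · rw [if_pos h]
          have h1 : gf 0 (psi 1 x) = √x / 2 := by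
            unfold gf
            rw [psi_of_lt one_pos le_rfl hx h.le,
              if_pos (div_neg_of_neg_of_pos (Real.log_neg hx h) one_pos)]
            rw [show (1 / 2 - 0 : ℝ) * (Real.log x / 1) = Real.log x * (1 / 2) by ring,
              Real.exp_mul, Real.exp_log hx, ← Real.sqrt_eq_rpow]
            ring
          rw [h1]
          unfold rr
          rw [if_pos h]
          field_simp
        · rw [if_neg h, gf_psi_zero one_pos le_rfl (not_lt.1 h)]
          simp
      · rw [if_neg hy, if_neg hy, zero_mul]

end Pool.Agent.Results.MP_bbd370_an.BoundedRateGap
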